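import Pool.Agent.H341.FS.FreiC

set_option autoImplicit false

/-!
# Equations over groups with left-orderable coefficient group
-/

namespace Pool.Agent.Results.MP_d45015_al.LeftOrderableCoefficients

open Monoid

/-- a group is left-orderable if it has a linear order that is invariant under left multiplication -/
def LeftOrderable (G : Type) [Group G] : Prop :=
  ∃ lo : LinearOrder G, ∀ a b c : G, lo.lt a b → lo.lt (c * a) (c * b)

theorem lo_int : Pool.Agent.H341.FS.LO (Multiplicative ℤ) := by
  refine ⟨inferInstanceAs (LinearOrder (Multiplicative ℤ)), fun a b c h => ?_⟩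
  exact mul_lt_mul_right h c

theorem inj_one (G : Type) [Group G] (G₀ : Subgroup G) (hG : LeftOrderable G₀)
    (w : Coprod G (Multiplicative ℤ))
    (hw : w ∈ G₀.map (Coprod.inl : G →* Coprod G (Multiplicative ℤ)) ⊔
      (Coprod.inr : Multiplicative ℤ →* Coprod G (Multiplicative ℤ)).range)
    (hwG : ∀ (g : Coprod G (Multiplicative ℤ)) (a : G), w ≠ g * Coprod.inl a * g⁻¹) :
    Function.Injective ((QuotientGroup.mk' (Subgroup.normalClosure ({w} : Set (Coprod G (Multiplicative ℤ))))).comp
      (Coprod.inl : G →* Coprod G (Multiplicative ℤ))) := by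
  by_cases hwB : ∃ (g : Coprod G (Multiplicative ℤ)) (b : Multiplicative ℤ), w = g * Coprod.inr b * g⁻¹
  · obtain ⟨g, b, rfl⟩ := hwB
    let ρ : Coprod G (Multiplicative ℤ) →* G := Coprod.lift (MonoidHom.id G) 1
    have hle : Subgroup.normalClosure ({g * Coprod.inr b * g⁻¹} : Set (Coprod G (Multiplicative ℤ))) ≤ ρ.ker := by
      apply Subgroup.normalClosure_le_normal
      intro x hx
      rw [Set.mem_singleton_iff] at hx
      rw [hx]
      show ρ (g * Coprod.inr b * g⁻¹) = 1
      have h1 : ρ (Coprod.inr b) = 1 := by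
        show Coprod.lift (MonoidHom.id G) 1 (Coprod.inr b) = 1
        rw [Coprod.lift_apply_inr]
        rfl
      rw [map_mul, map_mul, h1, map_inv]
      group
    rw [injective_iff_map_eq_one]
    intro a ha
    have h1 : (Coprod.inl a : Coprod G (Multiplicative ℤ)) ∈
        Subgroup.normalClosure ({g * Coprod.inr b * g⁻¹} : Set (Coprod G (Multiplicative ℤ))) := by
      rw [← QuotientGroup.eq_one_iff]
      exact ha
    have h2 : ρ (Coprod.inl a) = 1 := hle h1
    have h3 : ρ (Coprod.inl a) = a := by
      show Coprod.lift (MonoidHom.id G) 1 (Coprod.inl a) = a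
      rw [Coprod.lift_apply_inl]
      rfl
    rw [← h3, h2]
  · push Not at hwB
    have h := Pool.Agent.H341.FS.frei_full G (Multiplicative ℤ) G₀ ⊤ hG (by
      obtain ⟨lo, hlo⟩ := lo_int
      exact ⟨@LinearOrder.lift' _ _ lo (fun x : (⊤ : Subgroup (Multiplicative ℤ)) => (x : Multiplicative ℤ))
        Subtype.val_injective, fun a b c hab => hlo _ _ _ hab⟩) w (by
      rwa [← MonoidHom.range_eq_map]) hwG hwB 1 le_rfl
    rw [pow_one] at h
    exact h.1

theorem result : ∀ (G : Type) [Group G] (G₀ : Subgroup G), LeftOrderable G₀ →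
    ∃ (H : Type) (_ : Group H) (i : G →* H), Function.Injective i ∧
      ∀ w : Coprod G (Multiplicative ℤ),
        w ∈ G₀.map (Coprod.inl : G →* Coprod G (Multiplicative ℤ)) ⊔
          (Coprod.inr : Multiplicative ℤ →* Coprod G (Multiplicative ℤ)).range →
        (∀ (g : Coprod G (Multiplicative ℤ)) (a : G), w ≠ g * Coprod.inl a * g⁻¹) →
        ∃ h : H, Coprod.lift i (zpowersHom H h) w = 1 := by
  intro G _ G₀ hG
  let ι : Type := {w : Coprod G (Multiplicative ℤ) //
    w ∈ G₀.map (Coprod.inl : G →* Coprod G (Multiplicative ℤ)) ⊔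
      (Coprod.inr : Multiplicative ℤ →* Coprod G (Multiplicative ℤ)).range ∧
    ∀ (g : Coprod G (Multiplicative ℤ)) (a : G), w ≠ g * Coprod.inl a * g⁻¹}
  let Q : ι → Type := fun w => Coprod G (Multiplicative ℤ) ⧸
    Subgroup.normalClosure ({w.1} : Set (Coprod G (Multiplicative ℤ)))
  let φ : ∀ w : ι, G →* Q w := fun w =>
    (QuotientGroup.mk' (Subgroup.normalClosure ({w.1} : Set (Coprod G (Multiplicative ℤ))))).comp Coprod.inl
  have hφ : ∀ w, Function.Injective (φ w) := fun w => inj_one G G₀ hG w.1 w.2.1 w.2.2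
  by_cases hι : Nonempty ι
  · obtain ⟨w₀⟩ := hι
    refine ⟨PushoutI φ, inferInstance, (PushoutI.of (φ := φ) w₀).comp (φ w₀), ?_, ?_⟩
    · exact (PushoutI.of_injective hφ w₀).comp (hφ w₀)
    · intro w hw1 hw2
      let w' : ι := ⟨w, hw1, hw2⟩
      have hb : (PushoutI.of (φ := φ) w₀).comp (φ w₀) = (PushoutI.of (φ := φ) w').comp (φ w') :=
        (PushoutI.of_comp_eq_base (φ := φ) w₀).trans (PushoutI.of_comp_eq_base (φ := φ) w').symm
      let j : Multiplicative ℤ →* PushoutI φ := (PushoutI.of (φ := φ) w').comp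
        ((QuotientGroup.mk' (Subgroup.normalClosure ({w} : Set (Coprod G (Multiplicative ℤ))))).comp Coprod.inr)
      refine ⟨j (Multiplicative.ofAdd 1), ?_⟩
      have hj : zpowersHom (PushoutI φ) (j (Multiplicative.ofAdd 1)) = j := by
        apply MonoidHom.ext_mint
        simp
      rw [hj, hb]
      have hl : Coprod.lift ((PushoutI.of (φ := φ) w').comp (φ w')) j =
          (PushoutI.of (φ := φ) w').comp
            (QuotientGroup.mk' (Subgroup.normalClosure ({w} : Set (Coprod G (Multiplicative ℤ))))) := by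
        apply Coprod.hom_ext
        · ext a
          rw [MonoidHom.comp_apply, Coprod.lift_apply_inl]
          rfl
        · ext
          rw [MonoidHom.comp_apply, Coprod.lift_apply_inr]
          rfl
      rw [hl, MonoidHom.comp_apply]
      have h1 : QuotientGroup.mk' (Subgroup.normalClosure ({w} : Set (Coprod G (Multiplicative ℤ)))) w = 1 := by
        rw [QuotientGroup.mk'_apply, QuotientGroup.eq_one_iff]
        exact Subgroup.subset_normalClosure rfl
      rw [h1, map_one]
  · refine ⟨G, inferInstance, MonoidHom.id G, Function.injective_id, ?_⟩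
    intro w hw1 hw2
    exact (hι ⟨⟨w, hw1, hw2⟩⟩).elim

end Pool.Agent.Results.MP_d45015_al.LeftOrderableCoefficients
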